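import Pool.Agent.KS6_83.NT.G

/-!
# Long-time convergence of the curvature flow of planar networks with surface tensions

The theorem answers question Q1 of MP_9b4ab6_gt, and more. In its first part the curves of the
network have arbitrary positive surface tensions `c i` and the `120` degree condition is replaced
by Herring's condition `∑ c i τ i = 0`; the curves need not be embedded and may cross each other;
the fixed points may be anywhere and any number of curves may end there; the free junctions are
triple junctions, or junctions of any number of curves with constant angles. Whenever such a flow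
exists for all times, it converges, and all unit tangents (also those of the curves which collapse)
converge uniformly. The second part states that the flows of the problem are of this kind.
-/

set_option autoImplicit false

open Set Filter Topology Pool.Agent.R732.Net Pool.Agent.KS6_83.NT

namespace Pool.Agent.Results.MP_9b4ab6_gt.SurfaceTensions

/-- Every curvature flow of networks with surface tensions which exists for all times converges to a
network which is stationary for the weighted length. In particular every globally defined curvature
flow with fixed end-points of a regular network converges. -/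
theorem result :
    (∀ (ι W : Type) [Fintype ι] [Fintype W] (c : ι → ℝ) (vtx : ι × Bool → W) (P : Set W)
      (γ : ι → ℝ → ℝ → ℂ), IsTensionFlow c vtx P γ →
      (∀ w ∉ P, TripleJunction c vtx w ∨ ConstantAngles vtx γ w) →
      ∃ a b e : ι → ℂ, Converges c vtx P γ a b e) ∧
    ∀ (ι : Type) [Fintype ι] (Ω : Set ℂ) (σ : ι → ℝ → ℂ) (γ : ι → ℝ → ℝ → ℂ), IsOpen Ω →
      IsNetwork Ω σ → IsCurvatureFlow Ω σ γ →
      ∃ (W : Type) (_ : Fintype W) (vtx : ι × Bool → W) (P : Set W),
        (∀ d d', vtx d = vtx d' ↔ endpt σ d = endpt σ d') ∧
        (∀ d, vtx d ∈ P ↔ endpt σ d ∈ frontier Ω) ∧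
        IsTensionFlow (fun _ => 1) vtx P γ ∧ (∀ w ∉ P, TripleJunction (fun _ => 1) vtx w) ∧
        ∃ a b e : ι → ℂ, Converges (fun _ => 1) vtx P γ a b e ∧ IsStationary Ω σ a b := by
  classical
  refine ⟨fun ι W _ _ c vtx P γ h hJ => h.converges fun w hw => ?_, fun ι _ Ω σ γ hΩ hσ h => ?_⟩
  · rcases hJ w hw with hJ | hJ
    · exact h.constantAngles hw hJ
    · exact hJ
  · have h1 := tensionFlow_of hΩ hσ h
    have h2 : ∀ w ∉ {w : Vtx σ | w.1 ∈ frontier Ω}, TripleJunction (fun _ : ι => (1:ℝ)) (vx σ) w :=
      fun w hw => tripleJunction_of hΩ hσ h hw
    obtain ⟨a, b, e, hC⟩ := h1.converges fun w hw => h1.constantAngles hw (h2 w hw)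
    exact ⟨Vtx σ, inferInstance, vx σ, {w | w.1 ∈ frontier Ω}, fun d d' => vx_eq,
      fun d => Iff.rfl, h1, h2, a, b, e, hC, stationary_of h hC⟩

end Pool.Agent.Results.MP_9b4ab6_gt.SurfaceTensions
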